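import Pool.Agent.H32.RK.TargetsA
import Pool.Agent.H32.RK.TargetsB

/-!
Board hpk_modules, row DIB: the number of the frequencies of one vector.
-/

set_option autoImplicit false

open Finset NumberField Pool.Agent.H32.RQ Pool.Agent.H32.RK

namespace Pool.Agent.H56.RK

variable {K : Type} [Field K] [NumberField K]

theorem c_add (a b : 𝓞 K) : ((a + b : 𝓞 K) : K) = a + b := map_add (algebraMap (𝓞 K) K) a b

theorem c_sub (a b : 𝓞 K) : ((a - b : 𝓞 K) : K) = a - b := map_sub (algebraMap (𝓞 K) K) a b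

theorem c_mul (a b : 𝓞 K) : ((a * b : 𝓞 K) : K) = a * b := map_mul (algebraMap (𝓞 K) K) a b

theorem c_zero : ((0 : 𝓞 K) : K) = 0 := map_zero (algebraMap (𝓞 K) K)

theorem c_one : ((1 : 𝓞 K) : K) = 1 := map_one (algebraMap (𝓞 K) K)

theorem c_nat (n : ℕ) : ((n : 𝓞 K) : K) = n := map_natCast (algebraMap (𝓞 K) K) n

theorem c_sum {n : Type} (S : Finset n) (f : n → 𝓞 K) :
    ((∑ i ∈ S, f i : 𝓞 K) : K) = ∑ i ∈ S, (f i : K) := map_sum (algebraMap (𝓞 K) K) f S

theorem w_sum_le {n : Type} (w : InfinitePlace K) (S : Finset n) (f : n → K) :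
    w (∑ i ∈ S, f i) ≤ ∑ i ∈ S, w (f i) := w.1.sum_le S f

theorem w_sub_le (w : InfinitePlace K) (a b : K) : w (a - b) ≤ w a + w b := by
  have h1 := w.1.add_le a (-b)
  have h2 : w.1 (-b) = w.1 b := w.1.map_neg b
  rw [h2, ← sub_eq_add_neg] at h1
  exact h1

theorem w_nat (w : InfinitePlace K) (n : ℕ) : w (n : K) = n := by
  have h1 := w.norm_embedding_eq (n : K)
  rw [← h1, map_natCast, Complex.norm_natCast]

theorem w_nonneg (w : InfinitePlace K) (a : K) : 0 ≤ w a := apply_nonneg w a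

/-- a nonzero integer is large at some place -/
theorem exists_ge_one {r : 𝓞 K} (hr : r ≠ 0) : ∃ w : InfinitePlace K, 1 ≤ w (r : K) := by
  by_contra h
  push Not at h
  obtain ⟨w⟩ : Nonempty (InfinitePlace K) := inferInstance
  exact absurd (InfinitePlace.one_le_of_lt_one (w := w) hr fun z _ => h z) (not_le.2 (h w))

/-- sums of elements of the dual -/
theorem inD_sum (hadd : ∀ a b : K, InD a → InD b → InD (a + b)) (h0 : InD (0 : K)) {n : Type}
    (S : Finset n) (f : n → K) (h : ∀ i ∈ S, InD (f i)) : InD (∑ i ∈ S, f i) := by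
  classical
  induction S using Finset.induction_on with
  | empty => simpa using h0
  | insert a S ha ih =>
    rw [Finset.sum_insert ha]
    exact hadd _ _ (h a (Finset.mem_insert_self _ _))
      (ih fun i hi => h i (Finset.mem_insert_of_mem hi))

/-- the linear form of a column -/
noncomputable def col {s : ℕ} (m : Fin s → Fin s → K) (a : Fin s) : (Fin s → 𝓞 K) →ₗ[𝓞 K] K where
  toFun l := ∑ i, (l i : K) * m i a
  map_add' l l' := by
    rw [← Finset.sum_add_distrib]
    refine Finset.sum_congr rfl fun i _ => ?_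
    rw [Pi.add_apply, c_add]
    ring
  map_smul' r l := by
    rw [RingHom.id_apply, Finset.smul_sum]
    refine Finset.sum_congr rfl fun i _ => ?_
    rw [Pi.smul_apply, smul_eq_mul, Algebra.smul_def, c_mul]
    change (r : K) * (l i : K) * m i a = (r : K) * ((l i : K) * m i a)
    ring

theorem col_single {s : ℕ} (m : Fin s → Fin s → K) (a i j : Fin s) (x y : 𝓞 K) :
    col m a (Pi.single j x - Pi.single i y) = (x : K) * m j a - (y : K) * m i a := by
  have h1 : ∀ (j : Fin s) (x : 𝓞 K), col m a (Pi.single j x) = (x : K) * m j a := by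
    intro j x
    change ∑ i, ((Pi.single j x : Fin s → 𝓞 K) i : K) * m i a = _
    rw [Finset.sum_eq_single j]
    · rw [Pi.single_eq_same]
    · intro i _ hi
      rw [Pi.single_eq_of_ne hi, c_zero, zero_mul]
    · intro h
      exact absurd (Finset.mem_univ _) h
  rw [map_sub, h1, h1]

/-- the small linear relations are relations of the columns -/
theorem col_zero (hsub : ∀ a b : K, InD a → InD b → InD (a + b)) (h0 : InD (0 : K))
    (hmul : ∀ (a : 𝓞 K) (b : K), InD b → InD (a * b)) {n₀ : ℕ} (hn₀ : 1 ≤ n₀)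
    (hden : ∀ a : K, InD a → ∃ b : 𝓞 K, (n₀ : K) * a = b) {CF CS c : ℝ} (hCF : 1 ≤ CF)
    (hCS : 1 ≤ CS) {s b A : ℕ} (hs : 3 ≤ s) (hb : 1 ≤ b) (hA : 1 ≤ A)
    (hA1 : 2 * (n₀ * s * CS * CF) ≤ A) (hA2 : 2 * (n₀ * s * CS * CF) * (b : ℝ) ^ 4 ≤ c * A)
    {x : Fin s → 𝓞 K} (hx : Gd b c x) {θ : K} {m : Fin s → Fin s → K}
    (hm : ∀ i l, InD (m i l))
    (hap : ∀ i l (w : InfinitePlace K), w (θ * x i * x l - m i l) ≤ CF / A)
    {l : Fin s → 𝓞 K} (hl : Bd (CS * (b : ℝ) ^ 3) l) (hlx : ∑ i, l i * x i = 0) (a : Fin s) :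
    col m a l = 0 := by
  have hn0 : (1 : ℝ) ≤ n₀ := by exact_mod_cast hn₀
  have hs0 : (3 : ℝ) ≤ s := by exact_mod_cast hs
  have hb0 : (1 : ℝ) ≤ b := by exact_mod_cast hb
  have hA0 : (1 : ℝ) ≤ A := by exact_mod_cast hA
  have hAp : (0 : ℝ) < A := by linarith
  set κ : ℝ := n₀ * s * CS * CF with hκ
  have hκ0 : 0 < κ := by positivity
  -- the size of the values
  have hz : ∀ (j : Fin s) (w : InfinitePlace K), w (col m j l) ≤ s * (CS * (b : ℝ) ^ 3 * (CF / A)) := by
    intro j w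
    have h1 : col m j l = ∑ i, (l i : K) * (m i j - θ * x i * x j) := by
      have h2 : ∑ i, (l i : K) * (θ * x i * x j) = 0 := by
        have h3 : ((∑ i, l i * x i : 𝓞 K) : K) = 0 := by rw [hlx]; exact c_zero
        rw [c_sum] at h3
        calc ∑ i, (l i : K) * (θ * x i * x j) =
            (∑ i, ((l i * x i : 𝓞 K) : K)) * (θ * x j) := by
              rw [Finset.sum_mul]
              refine Finset.sum_congr rfl fun i _ => ?_
              rw [c_mul]
              ring
          _ = 0 := by rw [h3, zero_mul]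
      change ∑ i, (l i : K) * m i j = _
      calc ∑ i, (l i : K) * m i j = ∑ i, (l i : K) * m i j - ∑ i, (l i : K) * (θ * x i * x j) := by
            rw [h2, sub_zero]
        _ = _ := by
            rw [← Finset.sum_sub_distrib]
            exact Finset.sum_congr rfl fun i _ => by ring
    rw [h1]
    refine (w_sum_le w _ _).trans ?_
    have h4 : ∀ i ∈ (Finset.univ : Finset (Fin s)), w ((l i : K) * (m i j - θ * x i * x j)) ≤
        CS * (b : ℝ) ^ 3 * (CF / A) := by
      intro i _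
      rw [map_mul]
      have h5 : w (m i j - θ * x i * x j) = w (θ * x i * x j - m i j) := w.1.map_sub _ _
      rw [h5]
      exact mul_le_mul (hl i w) (hap i j w) (w_nonneg _ _) (by positivity)
    refine (Finset.sum_le_card_nsmul _ _ _ h4).trans (le_of_eq ?_)
    rw [Finset.card_univ, Fintype.card_fin, nsmul_eq_mul]
  -- the integral vector
  have hD : ∀ j, InD (col m j l) := by
    intro j
    change InD (∑ i, (l i : K) * m i j)
    exact inD_sum hsub h0 _ _ fun i _ => hmul _ _ (hm i j)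
  choose ζ hζ using fun j => hden _ (hD j)
  have hζw : ∀ (j : Fin s) (w : InfinitePlace K), w (ζ j : K) ≤ κ * (b : ℝ) ^ 3 / A := by
    intro j w
    rw [← hζ j, map_mul, w_nat]
    have h1 := mul_le_mul_of_nonneg_left (hz j w) (by positivity : (0 : ℝ) ≤ n₀)
    refine h1.trans (le_of_eq ?_)
    rw [hκ]
    ring
  have hmin : ∀ i j, mnr x ζ i j = 0 := by
    refine hx.iso ζ fun i j w => ?_
    have h1 : ((mnr x ζ i j : 𝓞 K) : K) = (x i : K) * ζ j - (x j : K) * ζ i := by
      unfold mnr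
      rw [c_sub, c_mul, c_mul]
    rw [h1]
    refine (w_sub_le w _ _).trans ?_
    rw [map_mul, map_mul]
    have h2 : ∀ i j, w (x i : K) * w (ζ j : K) ≤ (b : ℝ) ^ 4 * (κ * (b : ℝ) ^ 3 / A) :=
      fun i j => mul_le_mul (hx.bd i w) (hζw j w) (w_nonneg _ _) (by positivity)
    have h3 := h2 i j
    have h4 := h2 j i
    have h5 : 2 * ((b : ℝ) ^ 4 * (κ * (b : ℝ) ^ 3 / A)) ≤ c * (b : ℝ) ^ 3 := by
      have h6 : 2 * ((b : ℝ) ^ 4 * (κ * (b : ℝ) ^ 3 / A)) =
          (2 * κ * (b : ℝ) ^ 4) / A * (b : ℝ) ^ 3 := by ring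
      rw [h6]
      refine mul_le_mul_of_nonneg_right ?_ (by positivity)
      rw [div_le_iff₀ hAp]
      exact hA2
    linarith
  obtain ⟨a', ha'⟩ := hx.prm
  have hr : ∀ j, ζ j = (∑ i, a' i * ζ i) * x j := by
    intro j
    calc ζ j = (∑ i, a' i * x i) * ζ j := by rw [ha', one_mul]
      _ = ∑ i, a' i * (x i * ζ j) := by
          rw [Finset.sum_mul]
          exact Finset.sum_congr rfl fun i _ => by ring
      _ = ∑ i, a' i * (x j * ζ i) := by
          refine Finset.sum_congr rfl fun i _ => ?_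
          have h1 := hmin i j
          unfold mnr at h1
          rw [sub_eq_zero.1 h1]
      _ = _ := by
          rw [Finset.sum_mul]
          exact Finset.sum_congr rfl fun i _ => by ring
  have hr0 : ∑ i, a' i * ζ i = 0 := by
    by_contra hne
    obtain ⟨w, hw⟩ := exists_ge_one hne
    obtain ⟨i, hi⟩ := hx.big w
    have h1 := hζw i w
    rw [hr i, c_mul, map_mul] at h1
    have h2 : w (x i : K) ≤ κ * (b : ℝ) ^ 3 / A := by
      refine le_trans ?_ h1
      exact le_mul_of_one_le_left (w_nonneg _ _) hw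
    have h3 : κ * (b : ℝ) ^ 3 / A ≤ (b : ℝ) ^ 3 / 2 := by
      rw [div_le_iff₀ hAp]
      have h4 := mul_le_mul_of_nonneg_right hA1 (by positivity : (0 : ℝ) ≤ (b : ℝ) ^ 3)
      linarith
    have h4 : (b : ℝ) ^ 3 ≤ (b : ℝ) ^ 4 := pow_le_pow_right₀ hb0 (by norm_num)
    linarith
  have h1 : ζ a = 0 := by rw [hr a, hr0, zero_mul]
  have h2 := hζ a
  rw [h1, c_zero] at h2
  rcases mul_eq_zero.1 h2 with h3 | h3
  · exfalso
    have : (n₀ : K) ≠ 0 := Nat.cast_ne_zero.2 (by omega)
    exact this h3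
  · exact h3

/-- a symmetric matrix with proportional columns has rank one -/
theorem rank_one {s : ℕ} {x : Fin s → 𝓞 K} {a : Fin s → 𝓞 K} (ha : ∑ i, a i * x i = 1)
    {m : Fin s → Fin s → K} (hsym : ∀ i l, m i l = m l i)
    (h : ∀ i j l, (x i : K) * m j l - (x j : K) * m i l = 0) (j l : Fin s) :
    m j l = (∑ i, (a i : K) * ∑ i', (a i' : K) * m i' i) * x j * x l := by
  have ha' : ∑ i, (a i : K) * (x i : K) = 1 := by
    have h1 := congrArg (fun y : 𝓞 K => (y : K)) ha
    simp only [c_sum, c_mul, c_one] at h1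
    exact h1
  have h1 : ∀ j l, m j l = x j * ∑ i, (a i : K) * m i l := by
    intro j l
    calc m j l = (∑ i, (a i : K) * (x i : K)) * m j l := by rw [ha', one_mul]
      _ = ∑ i, (a i : K) * ((x i : K) * m j l) := by
          rw [Finset.sum_mul]
          exact Finset.sum_congr rfl fun i _ => by ring
      _ = ∑ i, (a i : K) * ((x j : K) * m i l) :=
          Finset.sum_congr rfl fun i _ => by rw [sub_eq_zero.1 (h i j l)]
      _ = _ := by
          rw [Finset.mul_sum]
          exact Finset.sum_congr rfl fun i _ => by ring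
  have h2 : ∑ i, (a i : K) * m i l = x l * ∑ i, (a i : K) * ∑ i', (a i' : K) * m i' i := by
    calc ∑ i, (a i : K) * m i l = ∑ i, (a i : K) * (x l * ∑ i', (a i' : K) * m i' i) :=
          Finset.sum_congr rfl fun i _ => by rw [hsym i l, h1 l i]
      _ = _ := by
          rw [Finset.mul_sum]
          exact Finset.sum_congr rfl fun i _ => by ring
  rw [h1 j l, h2]
  ring

end Pool.Agent.H56.RK

open Pool.Agent.H56.RK in
theorem Pool.Agent.H56.RK.pf_DIB (K : Type) [Field K] [NumberField K] (hFRQ : T_FRQ K)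
    (hDUB : T_DUB K) (hSPN : T_SPN K) (hDUA : T_DUA K) (hUPP : T_UPP K) : T_DIB K := by
  classical
  intro ι _ _ ω s hs
  obtain ⟨CF, hCF, hF⟩ := hFRQ ι ω
  obtain ⟨-, huniq, hcrit⟩ := hDUB ι ω
  obtain ⟨CS, hCS, hS⟩ := hSPN
  obtain ⟨hadd, hsub, hmul, hint, n₀, hn₀, hden⟩ := hDUA
  obtain ⟨CU, hCU, hU⟩ := hUPP
  have h0 : InD (0 : K) := by
    have := hint 0
    rwa [c_zero] at this
  have hn0 : (1 : ℝ) ≤ n₀ := by exact_mod_cast hn₀
  have hs0 : (3 : ℝ) ≤ s := by exact_mod_cast hs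
  set κ : ℝ := n₀ * s * CS * CF with hκ
  have hκ0 : 0 < κ := by positivity
  have hY0 : 0 < CU * (16 * n₀ * CF) ^ dg K := by positivity
  refine ⟨1 + 2 * κ + CU * (16 * n₀ * CF) ^ dg K, by linarith, ?_⟩
  intro b A J Q _ c x Z hb hA hcA hQ hJ hx hZ
  have hb0 : (1 : ℝ) ≤ b := by exact_mod_cast hb
  have hA0 : (1 : ℝ) ≤ A := by linarith
  have hAN : 1 ≤ A := by exact_mod_cast hA0
  have hAp : (0 : ℝ) < A := by linarith
  have hA1 : 2 * κ ≤ A := by linarith
  have hA2 : 2 * κ * (b : ℝ) ^ 4 ≤ c * A := by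
    refine le_trans ?_ hcA
    exact mul_le_mul_of_nonneg_right (by linarith) (by positivity)
  have hJr : (b : ℝ) ^ 8 ≤ J := by exact_mod_cast hJ
  have hb8 : (1 : ℝ) ≤ (b : ℝ) ^ 8 := one_le_pow₀ hb0
  have hQr : (Q : ℝ) = 2 * A * J := by exact_mod_cast hQ
  have hQ0 : (Q : K) ≠ 0 := Nat.cast_ne_zero.2 (NeZero.ne Q)
  have hlf0 : ∀ (ν : 𝓞 K) (l : ι), lf ω Q 0 ν l = 0 := by
    intro ν l
    unfold lf
    refine Finset.sum_eq_zero fun i _ => ?_
    rw [Pi.zero_apply, zero_mul]
  -- one frequency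
  have hone : ∀ t ∈ Z, ∃ θ α : K, (∀ l, Q * Algebra.trace ℚ K (θ * ω l) = ((t l).val : ℚ)) ∧
      InD α ∧ ∀ w : InfinitePlace K, w (θ - α) * (b : ℝ) ^ 8 ≤ 4 * CF / A := by
    intro t ht
    obtain ⟨θ, φ, m, e1, e2, e3, e4, e5⟩ := hF s A J Q x x (t, 0) hAN hQ (by
      rw [Pool.Agent.H32.RK.zs, Finset.mem_filter]
      refine ⟨Finset.mem_univ _, fun p l => ?_⟩
      change |(lf ω Q t (nu x p) l + lf ω Q 0 (nu x p) l).valMinAbs| < (J : ℤ)
      rw [hlf0, add_zero]
      exact hZ t ht p l)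
    have hφ : φ = 0 := by
      refine huniq φ 0 fun l => ?_
      have h1 := e2 l
      have h2 : ((((t, (0 : ι → ZMod Q)) : (ι → ZMod Q) × (ι → ZMod Q)).2 l).val : ℚ) = 0 := by
        change (((0 : ZMod Q).val : ℕ) : ℚ) = 0
        rw [ZMod.val_zero]
        rfl
      rw [h2] at h1
      rw [zero_mul, map_zero]
      rcases mul_eq_zero.1 h1 with h3 | h3
      · exact absurd h3 (Nat.cast_ne_zero.2 (NeZero.ne Q))
      · exact h3
    have hap : ∀ i l (w : InfinitePlace K), w (θ * x i * x l - m i l) ≤ CF / A := by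
      intro i l w
      have h1 := e5 i l w
      rw [hφ] at h1
      simp only [zero_mul, add_zero] at h1
      exact h1
    obtain ⟨a', ha'⟩ := hx.prm
    have hcols : ∀ i j l, (x i : K) * m j l - (x j : K) * m i l = 0 := by
      intro i j l
      have h1 := hS s ((b : ℝ) ^ 4) b x hs hb0 hx.bd hx.sup (col m l) (by
        intro l' _ hl' hlx
        refine col_zero hadd h0 hmul hn₀ hden hCF hCS hs hb hAN hA1 hA2 hx e4 hap ?_ hlx l
        have h2 : CS * (b : ℝ) ^ 4 / b = CS * (b : ℝ) ^ 3 := by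
          field_simp
        rw [← h2]
        exact hl') i j
      rw [col_single] at h1
      exact h1
    have hm1 := rank_one ha' e3 hcols
    set α : K := ∑ i, (a' i : K) * ∑ i', (a' i' : K) * m i' i with hα
    have hαD : InD α := inD_sum hadd h0 _ _ fun i _ => hmul _ _
      (inD_sum hadd h0 _ _ fun i' _ => hmul _ _ (e4 i' i))
    refine ⟨θ, α, e1, hαD, fun w => ?_⟩
    obtain ⟨i, hi⟩ := hx.big w
    have h1 := hap i i w
    have h2 : θ * x i * x i - m i i = (θ - α) * ((x i : K) * x i) := by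
      rw [hm1 i i]
      ring
    rw [h2, map_mul, map_mul] at h1
    have h3 : (b : ℝ) ^ 8 / 4 ≤ w (x i : K) * w (x i : K) := by
      have h4 : (b : ℝ) ^ 4 / 2 ≤ w (x i : K) := by linarith
      have h5 := mul_le_mul h4 h4 (by positivity) (w_nonneg _ _)
      refine le_trans (le_of_eq ?_) h5
      ring
    have h4 := mul_le_mul_of_nonneg_left h3 (w_nonneg w (θ - α))
    have h5 : 4 * CF / A = 4 * (CF / A) := by ring
    rw [h5]
    linarith
  choose! θ α hθ hα hw using hone
  -- the integers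
  have hτD : ∀ t ∈ Z, InD ((Q : K) * (θ t - α t)) := by
    intro t ht
    have h1 : InD ((Q : K) * θ t) := by
      refine hcrit _ fun l => ⟨((t l).val : ℤ), ?_⟩
      have h2 : (Q : K) * θ t * ω l = (Q : ℚ) • (θ t * ω l) := by
        rw [Algebra.smul_def, map_natCast]
        ring
      rw [h2, map_smul, smul_eq_mul, hθ t ht l]
      rfl
    have h2 : InD ((Q : K) * α t) := by
      have := hmul (Q : 𝓞 K) (α t) (hα t ht)
      rwa [c_nat] at this
    rw [mul_sub]
    exact hsub _ _ h1 h2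
  have hex : ∀ t ∈ Z, ∃ β : 𝓞 K, (n₀ : K) * ((Q : K) * (θ t - α t)) = β :=
    fun t ht => hden _ (hτD t ht)
  choose! β hβ using hex
  have hinj : Set.InjOn β (Z : Set (ι → ZMod Q)) := by
    intro t ht t' ht' hbb
    have ht1 : t ∈ Z := ht
    have ht2 : t' ∈ Z := ht'
    have h1 : (n₀ : K) * ((Q : K) * (θ t - α t)) = (n₀ : K) * ((Q : K) * (θ t' - α t')) := by
      rw [hβ t ht1, hβ t' ht2, hbb]
    have hn : (n₀ : K) ≠ 0 := Nat.cast_ne_zero.2 (by omega)
    have h2 := mul_left_cancel₀ hQ0 (mul_left_cancel₀ hn h1)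
    have h3 : θ t - θ t' = α t - α t' := by
      have := sub_eq_zero.2 h2
      rw [← sub_eq_zero, ← this]
      ring
    have h4 : InD (θ t - θ t') := by
      rw [h3]
      exact hsub _ _ (hα t ht1) (hα t' ht2)
    funext l
    obtain ⟨n, hn'⟩ := h4 (ω l)
    have h5 : ((t l).val : ℚ) - ((t' l).val : ℚ) = Q * n := by
      rw [← hθ t ht1 l, ← hθ t' ht2 l, ← hn', sub_mul, map_sub]
      ring
    have h6 : ((t l).val : ℤ) - ((t' l).val : ℤ) = Q * n := by
      exact_mod_cast h5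
    have h7 : (((t l).val : ℤ) : ZMod Q) - (((t' l).val : ℤ) : ZMod Q) = 0 := by
      rw [← Int.cast_sub, h6]
      push_cast
      rw [ZMod.natCast_self, zero_mul]
    rw [Int.cast_natCast, Int.cast_natCast, ZMod.natCast_zmod_val, ZMod.natCast_zmod_val] at h7
    exact sub_eq_zero.1 h7
  -- the count
  set X : ℝ := 8 * CF * J / (b : ℝ) ^ 8 with hX
  have hX1 : 1 ≤ X := by
    rw [hX, le_div_iff₀ (by positivity), one_mul]
    have h1 : (J : ℝ) ≤ 8 * CF * J := le_mul_of_one_le_left (Nat.cast_nonneg _) (by linarith)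
    linarith
  have hβw : ∀ t ∈ Z, ∀ w : InfinitePlace K, w (β t : K) ≤ n₀ * X := by
    intro t ht w
    rw [← hβ t ht, map_mul, map_mul, w_nat, w_nat]
    refine mul_le_mul_of_nonneg_left ?_ (by positivity)
    have h1 := hw t ht w
    have h2 : w (θ t - α t) ≤ 4 * CF / A / (b : ℝ) ^ 8 := by
      rw [le_div_iff₀ (by positivity)]
      exact h1
    have h3 := mul_le_mul_of_nonneg_left h2 (by positivity : (0 : ℝ) ≤ Q)
    refine h3.trans (le_of_eq ?_)
    rw [hX, hQr]
    field_simp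
    ring
  have hcard := hU (Z.image β) (2 * n₀ * X) (by nlinarith) (by
    intro u hu v hv w
    rw [Finset.mem_image] at hu hv
    obtain ⟨t, ht, rfl⟩ := hu
    obtain ⟨t', ht', rfl⟩ := hv
    refine (w_sub_le w _ _).trans ?_
    have h1 := hβw t ht w
    have h2 := hβw t' ht' w
    linarith)
  rw [Finset.card_image_of_injOn hinj] at hcard
  have h1 : (2 * n₀ * X) ^ dg K * (b : ℝ) ^ (8 * dg K) = (16 * n₀ * CF) ^ dg K * (J : ℝ) ^ dg K := by
    rw [pow_mul, ← mul_pow, ← mul_pow]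
    congr 1
    rw [hX]
    field_simp
    ring
  have h2 := mul_le_mul_of_nonneg_right hcard (by positivity : (0 : ℝ) ≤ (b : ℝ) ^ (8 * dg K))
  have h3 : CU * (2 * n₀ * X) ^ dg K * (b : ℝ) ^ (8 * dg K) =
      CU * (16 * n₀ * CF) ^ dg K * (J : ℝ) ^ dg K := by
    rw [mul_assoc, h1]
    ring
  rw [h3] at h2
  refine h2.trans (mul_le_mul_of_nonneg_right ?_ (by positivity))
  linarith
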