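import Pool.Agent.H92.RK.Targets

/-!
Module BS1: the power series of the ground state.
-/

namespace Pool.Agent.H56.RK

open Pool.Agent.H92.RK

/-- terms of the series -/
noncomputable def tm (j m : ℕ) (t : ℝ) : ℝ := (-t) ^ m / ((m.factorial : ℝ) * ((m + j).factorial : ℝ))

/-- the series -/
noncomputable def Fj (j : ℕ) (t : ℝ) : ℝ := ∑' m, tm j m t

theorem tm_le (j m : ℕ) (t R : ℝ) (h : |t| ≤ R) : |tm j m t| ≤ R ^ m / (m.factorial : ℝ) := by
  unfold tm
  have h1 : (0 : ℝ) < (m.factorial : ℝ) := by exact_mod_cast m.factorial_pos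
  have h2 : (1 : ℝ) ≤ ((m + j).factorial : ℝ) := by exact_mod_cast (m + j).factorial_pos
  rw [abs_div, abs_pow, abs_neg, abs_of_pos (by positivity : (0 : ℝ) < _ * _)]
  have h3 : |t| ^ m ≤ R ^ m := pow_le_pow_left₀ (abs_nonneg t) h m
  have h4 : (0 : ℝ) ≤ R ^ m := (pow_nonneg (abs_nonneg t) m).trans h3
  rw [div_le_div_iff₀ (by positivity) h1]
  nlinarith [mul_le_mul_of_nonneg_right h3 h1.le,
    mul_le_mul_of_nonneg_left h2 (mul_nonneg h4 h1.le)]

theorem summable_tm (j : ℕ) (t : ℝ) : Summable fun m => tm j m t :=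
  Summable.of_norm_bounded (Real.summable_pow_div_factorial |t|)
    fun m => by simpa using tm_le j m t |t| le_rfl

theorem hasDerivAt_Fj (j : ℕ) (t : ℝ) : HasDerivAt (Fj j) (-Fj (j + 1) t) t := by
  set R : ℝ := |t| + 1 with hR
  have hR0 : 0 < R := by positivity
  set g' : ℕ → ℝ → ℝ := fun m z =>
    -(m * (-z) ^ (m - 1)) / ((m.factorial : ℝ) * ((m + j).factorial : ℝ)) with hg'
  set u : ℕ → ℝ := fun m => m * R ^ (m - 1) / (m.factorial : ℝ) with hu
  have hg1 : ∀ m y, g' (m + 1) y = -tm (j + 1) m y := by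
    intro m y
    simp only [hg', tm]
    have h1 : ((m + 1).factorial : ℝ) = (m + 1) * (m.factorial : ℝ) := by
      rw [Nat.factorial_succ]; push_cast; ring
    have h2 : (m.factorial : ℝ) ≠ 0 := by exact_mod_cast m.factorial_ne_zero
    have h3 : ((m + 1 + j).factorial : ℝ) ≠ 0 := by exact_mod_cast (m + 1 + j).factorial_ne_zero
    have h4 : (m : ℝ) + 1 ≠ 0 := by positivity
    have h5 : m + (j + 1) = m + 1 + j := by ring
    rw [h1, h5, Nat.add_sub_cancel]
    push_cast
    field_simp
  have hu1 : ∀ m, u (m + 1) = R ^ m / (m.factorial : ℝ) := by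
    intro m
    simp only [hu]
    have h1 : ((m + 1).factorial : ℝ) = (m + 1) * (m.factorial : ℝ) := by
      rw [Nat.factorial_succ]; push_cast; ring
    have h2 : (m.factorial : ℝ) ≠ 0 := by exact_mod_cast m.factorial_ne_zero
    have h4 : (m : ℝ) + 1 ≠ 0 := by positivity
    rw [h1, Nat.add_sub_cancel]
    push_cast
    field_simp
  have hus : Summable u := by
    rw [← summable_nat_add_iff 1]
    simp only [hu1]
    exact Real.summable_pow_div_factorial R
  have hg0 : ∀ y, g' 0 y = 0 := by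
    intro y
    simp [hg']
  have key : HasDerivAt (fun z => ∑' m, tm j m z) (∑' m, g' m t) t := by
    refine hasDerivAt_tsum_of_isPreconnected hus (Metric.isOpen_ball (x := (0 : ℝ)) (ε := R))
      (convex_ball (0 : ℝ) R).isPreconnected ?_ ?_
      (y₀ := t) ?_ (summable_tm j t) ?_
    · intro m y _
      have h1 : HasDerivAt (fun z : ℝ => (-z) ^ m) (m * (-y) ^ (m - 1) * (-1)) y :=
        (hasDerivAt_neg y).pow m
      have h2 := h1.div_const ((m.factorial : ℝ) * ((m + j).factorial : ℝ))
      refine h2.congr_deriv ?_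
      simp only [hg']
      ring
    · intro m y hy
      rw [Metric.mem_ball, dist_zero_right, Real.norm_eq_abs] at hy
      rcases m with _ | m
      · rw [hg0]
        simp [hu]
      · rw [hg1, hu1, norm_neg, Real.norm_eq_abs]
        exact tm_le _ _ _ _ hy.le
    · simp [hR]
    · simp [hR]
  have hsum : ∑' m, g' m t = -Fj (j + 1) t := by
    have h1 : Summable fun m => g' m t := by
      rw [← summable_nat_add_iff 1]
      simp only [hg1]
      exact (summable_tm (j + 1) t).neg
    rw [h1.tsum_eq_zero_add, hg0, zero_add]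
    simp only [hg1]
    rw [tsum_neg]
    rfl
  rw [hsum] at key
  exact key

theorem contDiff_Fj (n : ℕ) : ∀ j, ContDiff ℝ n (Fj j) := by
  induction n with
  | zero =>
    intro j
    have : Differentiable ℝ (Fj j) := fun t => (hasDerivAt_Fj j t).differentiableAt
    exact contDiff_zero.2 this.continuous
  | succ n ih =>
    intro j
    have h := contDiff_succ_iff_deriv (𝕜 := ℝ) (n := (n : WithTop ℕ∞)) (f := Fj j)
    have h2 : ContDiff ℝ ((n : WithTop ℕ∞) + 1) (Fj j) := by
      rw [h]
      refine ⟨fun t => (hasDerivAt_Fj j t).differentiableAt, fun h3 => ?_, ?_⟩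
      · exact absurd h3 (by simp)
      · have : deriv (Fj j) = fun t => -Fj (j + 1) t := by
          funext t
          exact (hasDerivAt_Fj j t).deriv
        rw [this]
        exact (ih (j + 1)).neg
    exact_mod_cast h2

/-- the tail of the series -/
theorem tail (n : ℕ) (t X : ℝ) (h : |t| ≤ X) (hX : X ≤ (n + 1) * (n + 2) / 2) :
    |Fj 1 t - ∑ m ∈ Finset.range n, tm 1 m t| ≤
      2 * (X ^ n / ((n.factorial : ℝ) * ((n + 1).factorial : ℝ))) := by
  have hs := summable_tm 1 t
  have h1 : Fj 1 t - ∑ m ∈ Finset.range n, tm 1 m t = ∑' m, tm 1 (m + n) t := by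
    have := hs.sum_add_tsum_nat_add n
    unfold Fj
    linarith
  rw [h1, ← Real.norm_eq_abs]
  have hX0 : 0 ≤ X := (abs_nonneg t).trans h
  have hb : ∀ m, ‖tm 1 (m + n) t‖ ≤
      X ^ n / ((n.factorial : ℝ) * ((n + 1).factorial : ℝ)) * (1 / 2) ^ m := by
    intro m
    unfold tm
    have p1 : (0 : ℝ) < (n.factorial : ℝ) := by exact_mod_cast n.factorial_pos
    have p2 : (0 : ℝ) < ((n + 1).factorial : ℝ) := by exact_mod_cast (n + 1).factorial_pos
    have q1 : (n.factorial : ℝ) * (n + 1) ^ m ≤ ((m + n).factorial : ℝ) := by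
      have := @Nat.factorial_mul_pow_le_factorial n m
      rw [Nat.add_comm m n]
      exact_mod_cast this
    have q2 : ((n + 1).factorial : ℝ) * (n + 2) ^ m ≤ ((m + n + 1).factorial : ℝ) := by
      have := @Nat.factorial_mul_pow_le_factorial (n + 1) m
      have h5 : m + n + 1 = n + 1 + m := by ring
      rw [h5]
      have h6 : (n + 1).factorial * (n + 2) ^ m ≤ (n + 1 + m).factorial := this
      exact_mod_cast h6
    rw [Real.norm_eq_abs, abs_div, abs_pow, abs_neg,
      abs_of_pos (by positivity : (0 : ℝ) < _ * _)]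
    have q3 : |t| ^ (m + n) ≤ X ^ n * ((n + 1) * (n + 2) / 2) ^ m := by
      rw [pow_add, mul_comm]
      gcongr
      exact h.trans hX
    calc |t| ^ (m + n) / (((m + n).factorial : ℝ) * ((m + n + 1).factorial : ℝ))
        ≤ (X ^ n * ((n + 1) * (n + 2) / 2) ^ m) /
          (((n.factorial : ℝ) * (n + 1) ^ m) * (((n + 1).factorial : ℝ) * (n + 2) ^ m)) := by
          gcongr
      _ = X ^ n / ((n.factorial : ℝ) * ((n + 1).factorial : ℝ)) * (1 / 2) ^ m := by
          have r1 : ((n : ℝ) + 1) ≠ 0 := by positivity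
          have r2 : ((n : ℝ) + 2) ≠ 0 := by positivity
          rw [div_pow, mul_pow, div_pow]
          field_simp
          ring
  have hgeo : HasSum (fun m : ℕ =>
      X ^ n / ((n.factorial : ℝ) * ((n + 1).factorial : ℝ)) * (1 / 2 : ℝ) ^ m)
      (X ^ n / ((n.factorial : ℝ) * ((n + 1).factorial : ℝ)) * 2) :=
    hasSum_geometric_two.mul_left _
  refine (tsum_of_norm_bounded hgeo hb).trans (le_of_eq ?_)
  ring

theorem pf_BS1 : T_BS1 := by
  refine ⟨Fj 1, Fj 0, ?_, ?_, hasDerivAt_Fj 0, ?_, ?_, ?_⟩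
  · exact contDiff_infty.2 fun n => contDiff_Fj n 1
  · intro t
    have h1 := (hasDerivAt_id t).mul (hasDerivAt_Fj 1 t)
    refine HasDerivAt.congr_deriv h1 ?_
    simp only [id, one_mul]
    have s1 := summable_tm 1 t
    have s2 : Summable fun m => tm 2 m t := summable_tm 2 t
    have e1 : t * -Fj (1 + 1) t = ∑' m, (-t) * tm 2 m t := by
      rw [tsum_mul_left]
      change t * -Fj 2 t = -t * Fj 2 t
      ring
    rw [e1]
    unfold Fj
    rw [(summable_tm 0 t).tsum_eq_zero_add, s1.tsum_eq_zero_add, add_assoc,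
      ← ((summable_nat_add_iff 1).2 s1).tsum_add (s2.mul_left (-t))]
    have e2 : tm 1 0 t = tm 0 0 t := by simp [tm]
    rw [e2]
    refine congrArg (fun y => tm 0 0 t + y) (tsum_congr fun m => ?_)
    unfold tm
    have a1 : ((m + 1).factorial : ℝ) = (m + 1) * (m.factorial : ℝ) := by
      rw [Nat.factorial_succ]; push_cast; ring
    have a2 : ((m + 2).factorial : ℝ) = (m + 2) * ((m + 1) * (m.factorial : ℝ)) := by
      rw [Nat.factorial_succ, Nat.factorial_succ]; push_cast; ring
    have a3 : (m.factorial : ℝ) ≠ 0 := by exact_mod_cast m.factorial_ne_zero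
    have a4 : (m : ℝ) + 1 ≠ 0 := by positivity
    have a5 : (m : ℝ) + 2 ≠ 0 := by positivity
    have a6 : m + 1 + 1 = m + 2 := rfl
    simp only [add_zero, a6]
    rw [a1, a2, pow_succ]
    field_simp
    ring
  · have h := tail 1 0 0 (by simp) (by norm_num)
    simp only [Finset.range_one, Finset.sum_singleton] at h
    have h2 : tm 1 0 0 = 1 := by simp [tm]
    rw [h2] at h
    have h3 : |Fj 1 0 - 1| ≤ 0 := h.trans (by norm_num)
    have h4 := abs_nonpos_iff.1 h3
    linarith
  · have h := tail 6 (15 / 4) (15 / 4) (by norm_num) (by norm_num)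
    have h2 : ∑ m ∈ Finset.range 6, tm 1 m (15 / 4) ≤ -(92 / 10000) := by
      simp only [Finset.sum_range_succ, Finset.sum_range_zero, tm, Nat.factorial]
      norm_num
    have h3 : 2 * ((15 / 4 : ℝ) ^ 6 / (((6 : ℕ).factorial : ℝ) * (((6 + 1 : ℕ)).factorial : ℝ))) ≤
        2 / 1000 := by
      simp only [Nat.factorial]
      norm_num
    have h4 := (abs_le.1 (h.trans h3)).2
    linarith
  · intro t ht ht1
    have h := tail 2 t 1 (by rw [abs_of_nonneg ht]; exact ht1) (by norm_num)
    have h2 : ∑ m ∈ Finset.range 2, tm 1 m t = 1 - t / 2 := by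
      simp only [Finset.sum_range_succ, Finset.sum_range_zero, tm, Nat.factorial]
      norm_num
      ring
    have h3 : 2 * ((1 : ℝ) ^ 2 / (((2 : ℕ).factorial : ℝ) * (((2 + 1 : ℕ)).factorial : ℝ))) ≤
        1 / 6 := by
      simp only [Nat.factorial]
      norm_num
    have h4 := (abs_le.1 (h.trans h3)).1
    linarith

end Pool.Agent.H56.RK
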